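import Pool.Agent.Q92.SD.Laws
import Pool.Agent.Q92.SD.Form

/-!
# Stark's rational conjecture for abelian extensions: the fields which suffice
-/

set_option autoImplicit false

namespace Pool.Agent.Results.MP_d9bae3_nt.FieldsThatSuffice

open NumberField Pool.Agent.Q20.RS Pool.Agent.Q20.SI Pool.Agent.Q92.SD

/-- **Theorem.** Let `F` be a number field and `S` a finite set of primes.
(1) If `Q1` holds for the cyclic data over the finite extensions `E` of `F` whose local degrees above
`q ∈ S` belong to `D q`, sets closed under multiples without common divisor, then it holds for all data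
over `F`.
(2) If `Q1` holds for the cyclic data over the finite extensions `E` of `F` whose local degrees above `S`
are divisible by `M`, and `g` divides those of `F`, then `A(χ)^σ / A(χ^σ)` is a root of unity of order
dividing `M / gcd(M, g)` for all linear characters over `F`.
(3) For `N ≥ 1` there are finite extensions `E_j` of `F` and integers `n_j` with
`d(ψ) = ∏ d(ψ|E_j)^{n_j}` for all smooth linear characters `ψ`, `d(ψ) = A(ψ)^σ / A(ψ^σ)`, such that for
each `j`, for a prime `p`, the prime-to-`p` part of `N` divides all local degrees of `E_j` above `S`.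
(4) `Q1` over `F` follows from `Q1` for the cyclic data over the extensions of degree divisible by `p^k`
generated by `p`-th roots of products of primes in a given infinite set, `p = p₁, p₂`.
(5) Wide families of extensions, with an exponent. -/
theorem result (S : Finset ℕ) (hS : ∀ q ∈ S, q.Prime) (F : Type) [Field F] [NumberField F] :
    (∀ D : ℕ → Set ℕ, (∀ q ∈ S, ∀ d ∈ D q, ∀ n : ℕ, 0 < n → d * n ∈ D q) →
      (∀ q ∈ S, ∀ g : ℕ, (∀ d ∈ D q, g ∣ d) → g = 1) →
      (∀ (E : Type) [Field E] [NumberField E] [Algebra F E], LocIn S D E → Q1Cyc E) →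
      Q1Over F) ∧
    (∀ M g : ℕ, M ≠ 0 → LocIn S (fun _ => {d | g ∣ d}) F →
      (∀ (E : Type) [Field E] [NumberField E] [Algebra F E],
        LocIn S (fun _ => {d | M ∣ d}) E → Q1Cyc E) → Powers F (M / M.gcd g)) ∧
    (∀ N : ℕ, N ≠ 0 →
      ∃ (ι : Type) (_ : Fintype ι) (E : ι → Q20.RS.Sub F) (hb : ∀ j, base F ≤ E j) (n : ι → ℤ),
      (∀ j, FinExt (E j)) ∧
      (∀ j, ∃ p : ℕ, p.Prime ∧ ∀ (M : Type) [Field M] [NumberField M] [Algebra F M],
        Nonempty (M ≃ₐ[F] E j) → LocIn S (fun _ => {d | ordCompl[p] N ∣ d}) M) ∧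
      ∀ ψ : RL.Lin (base F), ψ.smooth → ∀ σ : ℂ ≃+* ℂ,
        RL.Eventually fun ℓ : Lvl F =>
          defct ℓ σ ψ.fn = ∏ j, defct ℓ σ (ψ.res (hb j)).fn ^ n j) ∧
    (∀ (p₁ p₂ k : ℕ) (T : Set ℕ), p₁.Prime → p₂.Prime → p₁ ≠ p₂ → (∀ l ∈ T, l.Prime) →
      T.Infinite →
      (∀ (E : Type) [Field E] [NumberField E] [Algebra F E] (p : ℕ), p = p₁ ∨ p = p₂ →
        Q5.BR.IsRadical T p F E → p ^ k ∣ Module.finrank F E → Q1Cyc E) → Q1Over F) ∧
    ∀ 𝓕 : Set (IntermediateField F (AlgebraicClosure F)), Q5.HR.Wide 𝓕 →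
      ∃ m : ℕ, 0 < m ∧ ((∀ E ∈ 𝓕, ∀ (E₁ : Type) [Field E₁] [NumberField E₁] [Algebra F E₁],
        Nonempty (E₁ ≃ₐ[F] E) → Q1Cyc E₁) → Powers F m) :=
  ⟨fun _ hD hD' h => local_exact hS hD hD' h, fun _ _ hM hg h => local_power hS hM hg h,
    fun _ hN => exists_formula hS hN,
    fun _ _ k _ h₁ h₂ hne hpr hinf h => radical_exact h₁ h₂ hne hpr hinf k h,
    fun _ hF => wide_power hF⟩

end Pool.Agent.Results.MP_d9bae3_nt.FieldsThatSuffice
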