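import Pool.Agent.Q20.CU.Ord

/-!
# Stark's rational conjecture for abelian extensions: ramification above one prime number suffices
-/

set_option autoImplicit false

namespace Pool.Agent.Results.MP_d9bae3_nt.OnePrimeSuffices

open NumberField IsDedekindDomain Pool.Agent.Q20.RS Pool.Agent.Q20.SI Pool.Agent.Q20.CU

/-- **Theorem.** Let `Q` be a finite set of prime numbers. `Q1` holds for all data over all number fields
if and only if it holds for the data `(L/E, S, T)` with the following two properties. (i) `L/E` is
cyclic of degree greater than `1` and (a) `E` is totally complex, all ramified primes lie above one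
prime number and the primes above the other elements of `Q` split completely, or (b) `E` is totally
complex and the degree is a power of an odd prime, or (c) the degree is a power of `2` and `L` is totally
complex or unramified over `E` at all primes. (ii) `S` consists of the archimedean places, the ramified
primes and at most one further prime. -/
theorem result (Q : Finset ℕ) (hQ : ∀ q ∈ Q, q.Prime) :
    (∀ (F K : Type) [Field F] [NumberField F] [Field K] [NumberField K] [Algebra F K]
      [IsGalois F K] (D : OrderData F K), D.Q1) ↔
    ∀ (E L : Type) [Field E] [NumberField E] [Field L] [NumberField L] [Algebra E L]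
      [IsGalois E L] (D : OrderData E L), Special E L Q →
      (∃ p : HeightOneSpectrum (𝓞 E), ∀ q ∈ D.S, q = p ∨ ¬ Unrm L q) → D.Q1 :=
  ⟨fun h _ _ _ _ _ _ _ _ D _ _ => h _ _ D, fun h F K _ _ _ _ _ _ D => ord_main hQ h F K D⟩

end Pool.Agent.Results.MP_d9bae3_nt.OnePrimeSuffices
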