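import Pool.Agent.Q20.SI.Rel

/-!
# Stark's rational conjecture for abelian extensions
-/

set_option autoImplicit false

namespace Pool.Agent.Results.MP_d9bae3_nt.UnramifiedAndMinimalRank

open NumberField Pool.Agent.Q20.RS Pool.Agent.Q20.SI

/-- **Theorem.** Let `F` be a number field.
(1) For the data `(K/F, S, T)` of the question, `Q1` holds if and only if Stark's equality
`A(χ)^σ = A(χ^σ)` holds for all automorphisms `σ` of `ℂ` and the nontrivial characters `χ` with
`r(χ) = r`.
(2) For every smooth linear character `ψ` of `Gal(F̄/F)` there is a trivial or quadratic character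
`η` which is trivial on the decomposition groups at the finite places where `ψ` is ramified, such that
`ψη` is totally odd, and, if `η ≠ 1`, finite extensions `F₁, F₂ ⊆ F₃` of `F` over which `ψ` becomes
unramified at all finite places, with `ψ + Ind ψ|F₃ = ψη + Ind ψ|F₁ + Ind ψ|F₂`, such that Stark's equality
holds for `ψ` and `σ` if and only if `d(ψη) d(ψ|F₁) d(ψ|F₂) = d(ψ|F₃)`, `d(χ) = A(χ)^σ / A(χ^σ)`.
(3) Grant `Q1` for the cyclic extensions `L/E` which are unramified at all finite places, `E` finite
over `F`. Then `Q1` holds for all data over `F` if (and only if) it holds for the cyclic extensions of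
`F` with `r = r₂(F)`, the smallest possible value (`r = 0` for totally real `F`).
(4) `Q1` holds for all data over all number fields if and only if it holds in the cases of (3). -/
theorem result :
    (∀ (F K : Type) [Field F] [NumberField F] [Field K] [NumberField K] [Algebra F K]
      [IsGalois F K] (D : OrderData F K), D.Q1 ↔ ∀ χ : (K ≃ₐ[F] K) →* ℂˣ, D.Exact χ →
        (∃ g, χ g ≠ 1) → ∀ σ : ℂ ≃+* ℂ, StarkChar χ σ) ∧
    (∀ (F : Type) [Field F] [NumberField F] (ψ : RL.Lin (base F)), ψ.smooth → OddRelation ψ) ∧
    (∀ (F : Type) [Field F] [NumberField F], UnramifiedCase F → (MinimalCase F ↔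
      ∀ (K : Type) [Field K] [NumberField K] [Algebra F K] [IsGalois F K] (D : OrderData F K),
        D.Q1)) ∧
    ((∀ (F : Type) [Field F] [NumberField F], UnramifiedCase F ∧ MinimalCase F) ↔
      ∀ (F K : Type) [Field F] [NumberField F] [Field K] [NumberField K] [Algebra F K]
        [IsGalois F K] (D : OrderData F K), D.Q1) :=
  ⟨fun _ _ _ _ _ _ _ _ D => order_iff D, fun _ _ _ _ hψ => odd_relation hψ,
    fun _ _ _ hU => ⟨fun hM _ _ _ _ _ D => order_all hU hM D, fun h L _ _ _ _ D _ _ => h L D⟩,
    ⟨fun h F _ _ _ _ _ _ _ D => order_all (h F).1 (h F).2 D, fun h F _ _ =>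
      ⟨fun E L _ _ _ _ _ _ _ D _ _ => h E L D, fun L _ _ _ _ D _ _ => h F L D⟩⟩⟩

end Pool.Agent.Results.MP_d9bae3_nt.UnramifiedAndMinimalRank
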